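import Mathlib

open Set Real Filter Topology
open scoped NNReal

namespace Pool.Agent.Results.MP_d5a48f_an.Yes

abbrev E := EuclideanSpace ℝ (Fin 2)

/-- Partial derivative in the `i`-th space direction. -/
noncomputable def D (i : Fin 2) (f : E → ℝ) (x : E) : ℝ := fderiv ℝ f x (EuclideanSpace.single i 1)

/-- Smooth `2π`-periodic solution of the Euler equations with bounded `C¹` norm. -/
structure Euler (u : ℝ → E → E) (p : ℝ → E → ℝ) : Prop where
  smooth_u : ContDiff ℝ ⊤ fun z : ℝ × E => u z.1 z.2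
  smooth_p : ContDiff ℝ ⊤ fun z : ℝ × E => p z.1 z.2
  per : ∀ t x i, u t (x + EuclideanSpace.single i (2 * π)) = u t x ∧
    p t (x + EuclideanSpace.single i (2 * π)) = p t x
  eq : ∀ t ≥ 0, ∀ x i, deriv (fun s => u s x i) t + ∑ j, u t x j * D j (fun y => u t y i) x +
    D i (p t) x = 0
  div : ∀ t ≥ 0, ∀ x, ∑ i, D i (fun y => u t y i) x = 0
  bdd : ∃ M, ∀ t ≥ 0, ∀ x i, |u t x i| ≤ M ∧ ∀ j, |D j (fun y => u t y i) x| ≤ M

lemma glob {f : E → E} {K L : ℝ≥0} (hK : LipschitzWith K f) (hL : ∀ x, ‖f x‖ ≤ L) (x : E) :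
    ∃ α : ℝ → E, α 0 = x ∧ ∀ t, HasDerivAt α (f (α t)) t := by
  have : ∀ n : ℕ, ∃ α : ℝ → E, α 0 = x ∧ ∀ t ∈ Ioo (-(n + 1 : ℝ)) (n + 1),
      HasDerivAt α (f (α t)) t := by
    intro n
    have hn : (0 : ℝ) < n + 1 := by positivity
    obtain ⟨α, h0, h⟩ := (IsPicardLindelof.of_time_independent (f := f) (tmin := -(n + 1 : ℝ))
      (tmax := n + 1) (t₀ := ⟨0, by constructor <;> linarith⟩) (x₀ := x) (a := L * (n + 1)) (r := 0)
      (fun y _ => hL y) hK.lipschitzOnWith (by simp)).exists_eq_forall_mem_Icc_hasDerivWithinAt₀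
    exact ⟨α, h0, fun t ht => (h t (Ioo_subset_Icc_self ht)).hasDerivAt (Icc_mem_nhds ht.1 ht.2)⟩
  choose α h0 h using this
  have k : ∀ n m : ℕ, n ≤ m → EqOn (α n) (α m) (Ioo (-(n + 1 : ℝ)) (n + 1)) := by
    intro n m hnm
    have hn : (0 : ℝ) < n + 1 := by positivity
    have : (n : ℝ) ≤ m := by exact_mod_cast hnm
    exact ODE_solution_unique_of_mem_Ioo (v := fun _ => f) (s := fun _ => univ) (t₀ := 0)
      (fun _ _ => hK.lipschitzOnWith) ⟨by linarith, hn⟩ (fun t ht => ⟨h n t ht, trivial⟩)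
      (fun t ht => ⟨h m t ⟨by linarith [ht.1], by linarith [ht.2]⟩, trivial⟩) (by rw [h0, h0])
  have m : ∀ t : ℝ, t ∈ Ioo (-((⌊|t|⌋₊ : ℕ) + 1 : ℝ)) (⌊|t|⌋₊ + 1) := fun t =>
    abs_lt.1 (Nat.lt_floor_add_one _)
  refine ⟨fun t => α ⌊|t|⌋₊ t, h0 _, fun t => ?_⟩
  have e : (fun t => α ⌊|t|⌋₊ t) =ᶠ[𝓝 t] α ⌊|t|⌋₊ := by
    filter_upwards [isOpen_Ioo.mem_nhds (m t)] with s hs
    rw [k _ _ (le_max_left _ ⌊|t|⌋₊) (m s), k _ _ (le_max_right ⌊|s|⌋₊ _) hs]
  exact (h _ t (m t)).congr_of_eventuallyEq e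

noncomputable def U (x : E) : E := !₂[sin (x 0) * cos (x 1), -(cos (x 0) * sin (x 1))]
noncomputable def P (x : E) : ℝ := (cos (x 0) * cos (x 0) + cos (x 1) * cos (x 1)) / 2

lemma pr (i : Fin 2) (x : E) : HasFDerivAt (fun y : E => y i) (EuclideanSpace.proj (𝕜 := ℝ) i) x :=
  (EuclideanSpace.proj (𝕜 := ℝ) i).hasFDerivAt

lemma D0 (j : Fin 2) (x : E) : D j (fun y => U y 0) x =
    ![cos (x 0) * cos (x 1), -(sin (x 0) * sin (x 1))] j := by
  have := ((pr 0 x).sin.mul (pr 1 x).cos).fderiv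
  rw [D, show (fun y => U y 0) = _ from rfl, show (fun y : E => U y 0) =
    (fun y : E => sin (y 0)) * fun y => cos (y 1) from rfl, this]
  fin_cases j <;> simp [mul_comm]

lemma D1 (j : Fin 2) (x : E) : D j (fun y => U y 1) x =
    ![sin (x 0) * sin (x 1), -(cos (x 0) * cos (x 1))] j := by
  have := ((pr 0 x).cos.mul (pr 1 x).sin).neg.fderiv
  rw [D, show (fun y : E => U y 1) = -((fun y : E => cos (y 0)) * fun y => sin (y 1)) from rfl, this]
  fin_cases j <;> simp [mul_comm]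

lemma DP (j : Fin 2) (x : E) : D j P x = -(sin (x j) * cos (x j)) := by
  have := ((((pr 0 x).cos.mul (pr 0 x).cos).add ((pr 1 x).cos.mul (pr 1 x).cos)).mul_const
    (2⁻¹ : ℝ)).fderiv
  rw [D, show P = _ from funext fun y => div_eq_mul_inv _ _]
  erw [this]
  fin_cases j <;> simp <;> ring

lemma am {a b : ℝ} (ha : |a| ≤ 1) (hb : |b| ≤ 1) : |a * b| ≤ 1 := by
  rw [abs_mul]; exact mul_le_one₀ ha (abs_nonneg _) hb

lemma euler : Euler (fun _ => U) fun _ => P where
  smooth_u := by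
    refine contDiff_euclidean.2 fun i => ?_
    fin_cases i <;> simp [U] <;> fun_prop
  smooth_p := by unfold P; fun_prop
  per t x i := by fin_cases i <;> simp [U, P]
  eq t _ x i := by
    fin_cases i
    · simp [D0, DP]
      simp [U]
      linear_combination sin (x 0) * cos (x 0) * sin_sq_add_cos_sq (x 1)
    · simp [D1, DP]
      simp [U]
      linear_combination sin (x 1) * cos (x 1) * sin_sq_add_cos_sq (x 0)
  div t _ x := by simp [D0, D1]
  bdd := ⟨1, fun t _ x i => by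
    fin_cases i
    · refine ⟨am (abs_sin_le_one _) (abs_cos_le_one _), fun j => ?_⟩
      erw [D0]
      fin_cases j <;> simp [-abs_mul, am, abs_sin_le_one, abs_cos_le_one]
    · refine ⟨(abs_neg _).trans_le (am (abs_cos_le_one _) (abs_sin_le_one _)), fun j => ?_⟩
      erw [D1]
      fin_cases j <;> simp [-abs_mul, am, abs_sin_le_one, abs_cos_le_one]⟩

lemma smU : ContDiff ℝ 1 U := by
  refine contDiff_euclidean.2 fun i => ?_
  fin_cases i <;> simp [U] <;> fun_prop

lemma nU (x : E) : ‖U x‖ ≤ (2 : ℝ≥0) := by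
  rw [EuclideanSpace.norm_eq]
  refine sqrt_le_iff.2 ⟨by norm_num, ?_⟩
  obtain ⟨h1, h2⟩ := abs_le.1 (am (abs_sin_le_one (x 0)) (abs_cos_le_one (x 1)))
  obtain ⟨h3, h4⟩ := abs_le.1 (am (abs_cos_le_one (x 0)) (abs_sin_le_one (x 1)))
  simp only [Fin.sum_univ_two, norm_eq_abs, sq_abs, U]
  simp
  nlinarith

lemma lipU : LipschitzWith 4 U := by
  have k : ∀ a b c d : ℝ, |sin a * cos b - sin c * cos d| ≤ |a - c| + |b - d| := by
    intro a b c d
    rw [show sin a * cos b - sin c * cos d = (sin a - sin c) * cos b + sin c * (cos b - cos d) by ring]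
    refine (abs_add_le _ _).trans (add_le_add ?_ ?_) <;> rw [abs_mul]
    · exact (mul_le_of_le_one_right (abs_nonneg _) (abs_cos_le_one _)).trans (abs_sin_sub_sin_le _ _)
    · exact (mul_le_of_le_one_left (abs_nonneg _) (abs_sin_le_one _)).trans (abs_cos_sub_cos_le _ _)
  refine LipschitzWith.of_dist_le_mul fun x y => ?_
  have h0 : |x 0 - y 0| ≤ dist x y := PiLp.dist_apply_le x y 0
  have h1 : |x 1 - y 1| ≤ dist x y := PiLp.dist_apply_le x y 1
  have a0 : dist (U x 0) (U y 0) ≤ 2 * dist x y := (k _ _ _ _).trans (by linarith)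
  have a1 : dist (U x 1) (U y 1) ≤ 2 * dist x y := by
    show dist (-(cos (x 0) * sin (x 1))) (-(cos (y 0) * sin (y 1))) ≤ _
    rw [dist_neg_neg, mul_comm, mul_comm (cos (y 0))]
    exact (k _ _ _ _).trans (by linarith)
  rw [EuclideanSpace.dist_eq]
  refine sqrt_le_iff.2 ⟨by positivity, ?_⟩
  have := dist_nonneg (x := U x 0) (y := U y 0)
  have := dist_nonneg (x := U x 1) (y := U y 1)
  rw [Fin.sum_univ_two]
  push_cast
  nlinarith

noncomputable def g (s : ℝ) : ℝ := s ^ 2 * cos (π / s)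
noncomputable def tr (t a : ℝ) : E := EuclideanSpace.single 0 (2 * arctan (exp t * a))

lemma tr_ode (t a : ℝ) : HasDerivAt (fun t => tr t a) (U (tr t a)) t := by
  have h := (((hasDerivAt_exp t).mul_const a).arctan.const_mul 2).smul_const
    (EuclideanSpace.single 0 1 : E)
  have e1 : (fun t => tr t a) = fun y => (2 * arctan (rexp y * a)) • EuclideanSpace.single 0 1 := by
    ext s i
    fin_cases i <;> simp [tr]
  rw [e1]
  refine h.congr_deriv (Eq.symm ?_)
  · ext i
    fin_cases i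
    · simp [tr, U, sin_two_mul, sin_arctan, cos_arctan]
      field_simp
      rw [sq_sqrt (by positivity)]
    · simp [tr, U]

lemma cg : Continuous g := by
  refine continuous_iff_continuousAt.2 fun s => ?_
  by_cases h : s = 0
  · subst h
    rw [ContinuousAt, show g 0 = 0 by simp [g]]
    refine squeeze_zero_norm (a := fun s : ℝ => s ^ 2) (fun s => ?_)
      (by simpa using (continuous_pow 2).tendsto (0 : ℝ))
    rw [g, norm_eq_abs, abs_mul, abs_sq]
    exact mul_le_of_le_one_right (sq_nonneg _) (abs_cos_le_one _)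
  · unfold g
    fun_prop (disch := exact h)

lemma lipg : LipschitzOnWith 6 g (Icc 0 1) := by
  have : LipschitzOnWith 6 g (Ioc 0 1) := by
    refine (convex_Ioc 0 1).lipschitzOnWith_of_nnnorm_hasDerivWithin_le
      (f' := fun s => 2 * s * cos (π / s) + π * sin (π / s)) (fun s hs => ?_) fun s hs => ?_
    · have h := (hasDerivAt_pow 2 s).mul ((hasDerivAt_inv hs.1.ne').const_mul π).cos
      refine HasDerivAt.hasDerivWithinAt (HasDerivAt.congr_deriv (f := g) h ?_)
      simp only [div_eq_mul_inv]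
      have := hs.1.ne'
      field_simp
      simp
      ring
    · rw [← NNReal.coe_le_coe, coe_nnnorm, norm_eq_abs]
      obtain ⟨h1, h2⟩ := abs_le.1 (abs_cos_le_one (π / s))
      obtain ⟨h3, h4⟩ := abs_le.1 (abs_sin_le_one (π / s))
      push_cast
      rw [abs_le]
      constructor <;> nlinarith [hs.1, hs.2, pi_pos, pi_le_four]
  have h := this.closure cg.continuousOn
  rwa [closure_Ioc zero_ne_one] at h

lemma gv (n : ℕ) : g (1 / (n + 1)) = (-1) ^ (n + 1) / (n + 1) ^ 2 := by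
  rw [g, div_div_eq_mul_div, div_one, mul_comm π, ← Nat.cast_succ, cos_nat_mul_pi]
  field_simp

lemma step (t : ℝ) (n : ℕ) (h : ((n : ℝ) + 1) ^ 2 ≤ exp t) :
    π / 2 ≤ dist (tr t (g (1 / (n + 1)))) (tr t (g (1 / ((n + 1 : ℕ) + 1)))) := by
  rw [tr, tr, EuclideanSpace.dist_single_same, gv, gv, Real.dist_eq]
  have h1 : π / 4 ≤ arctan (exp t / (n + 1) ^ 2) := by
    rw [← arctan_one]
    exact arctan_strictMono.monotone ((one_le_div (by positivity)).2 h)
  have h2 : 0 ≤ arctan (exp t / ((n + 1 : ℕ) + 1) ^ 2) := by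
    rw [← arctan_zero]
    exact arctan_strictMono.monotone (by positivity)
  rcases neg_one_pow_eq_or ℝ (n + 1) with e | e
  · rw [pow_succ (-1 : ℝ) (n + 1), e]
    simp only [mul_neg, neg_div, arctan_neg, mul_one, mul_one_div]
    exact le_abs.2 (.inl (by linarith))
  · rw [pow_succ (-1 : ℝ) (n + 1), e]
    simp only [mul_neg, neg_div, arctan_neg, mul_one, neg_neg, mul_one_div]
    exact le_abs.2 (.inr (by linarith))

theorem result : ∃ (u : ℝ → E → E) (p : ℝ → E → ℝ) (Φ : ℝ → E → E) (l : ℝ → E) (c γ : ℝ),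
    Euler u p ∧ (∀ x, Φ 0 x = x ∧ ∀ t, HasDerivAt (fun s => Φ s x) (u t (Φ t x)) t) ∧
    ContinuousOn l (Icc 0 1) ∧ (∃ s ∈ Icc (0 : ℝ) 1, l s ≠ l 0) ∧ BoundedVariationOn l (Icc 0 1) ∧
    0 < c ∧ 0 < γ ∧
    ∀ t ≥ 0, ENNReal.ofReal (c * exp (γ * t)) ≤ eVariationOn (fun s => Φ t (l s)) (Icc 0 1) := by
  choose α h0 h using glob lipU nU
  have e : ∀ t a, α (tr 0 a) t = tr t a := fun t a =>
    congrFun (ODE_solution_unique_univ (v := fun _ => U) (s := fun _ => univ) (t₀ := 0)
      (fun _ => lipU.lipschitzOnWith) (fun t => ⟨h _ t, trivial⟩) (fun t => ⟨tr_ode t a, trivial⟩)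
      (h0 _)) t
  have lt : LipschitzWith 2 (tr 0) := LipschitzWith.of_dist_le_mul fun a b => by
    rw [tr, tr, EuclideanSpace.dist_single_same, exp_zero, one_mul, one_mul, Real.dist_eq,
      ← mul_sub, abs_mul, abs_two]
    have : LipschitzWith 1 arctan := lipschitzWith_of_nnnorm_deriv_le differentiable_arctan fun x => by
      rw [Real.deriv_arctan, ← NNReal.coe_le_coe, coe_nnnorm, norm_eq_abs, abs_of_nonneg (by positivity)]
      exact (div_le_one (by positivity)).2 (by nlinarith [sq_nonneg x])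
    have := this.dist_le_mul a b
    rw [NNReal.coe_one, one_mul] at this
    exact mul_le_mul_of_nonneg_left this zero_le_two
  refine ⟨_, _, fun t x => α x t, fun s => tr 0 (g s), π / 4, 1 / 2, euler,
    fun x => ⟨h0 x, h x⟩, (lt.continuous.comp cg).continuousOn, ⟨1, by simp, fun h => ?_⟩, ?_,
    by positivity, by norm_num, fun t ht => ?_⟩
  · have := congrArg (· 0) h
    simp [tr, g, pi_ne_zero] at this
  · have : BoundedVariationOn id (Icc (0 : ℝ) 1) := by
      simpa using (monotoneOn_id (s := Icc (0 : ℝ) 1)).locallyBoundedVariationOn 0 1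
        (by simp) (by simp)
    exact (lt.comp_lipschitzOnWith lipg).comp_boundedVariationOn (mapsTo_id _) this
  · simp only [e]
    set N := ⌊exp (1 / 2 * t)⌋₊ with hN
    have h1 : 1 ≤ exp (1 / 2 * t) := one_le_exp (by positivity)
    have hN1 : (N : ℝ) ≤ exp (1 / 2 * t) := Nat.floor_le (by positivity)
    have hN2 : exp (1 / 2 * t) ≤ 2 * N := by
      have : (1 : ℝ) ≤ N := by exact_mod_cast Nat.le_floor (by simpa using h1)
      linarith [Nat.lt_floor_add_one (exp (1 / 2 * t))]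
    refine le_trans ?_ (eVariationOn.sum_le (n := N) (u := fun i => 1 / (((N - i : ℕ) : ℝ) + 1))
      (fun i j hij => one_div_le_one_div_of_le (by positivity) (by
        have : N - j ≤ N - i := by omega
        exact_mod_cast Nat.succ_le_succ this)) fun i => ⟨by positivity,
        (div_le_one (by positivity)).2 (by simp)⟩)
    refine le_trans ?_ (Finset.card_nsmul_le_sum _ _ (ENNReal.ofReal (π / 2)) fun i hi => ?_)
    · rw [Finset.card_range, nsmul_eq_mul, ← ENNReal.ofReal_natCast, ← ENNReal.ofReal_mul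
        (by positivity)]
      exact ENNReal.ofReal_le_ofReal (by nlinarith [pi_pos])
    · have hi := Finset.mem_range.1 hi
      rw [edist_dist, show N - i = N - (i + 1) + 1 by omega]
      refine ENNReal.ofReal_le_ofReal (step t _ ?_)
      have : ((N - (i + 1) : ℕ) : ℝ) + 1 ≤ N := by exact_mod_cast (by omega : N - (i + 1) + 1 ≤ N)
      rw [show exp t = exp (1 / 2 * t) ^ 2 by rw [← exp_nat_mul]; congr 1; push_cast; ring]
      exact pow_le_pow_left₀ (by positivity) (this.trans hN1) 2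

end Pool.Agent.Results.MP_d5a48f_an.Yes
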